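import Pool.Agent.U307.RAD.Stm3

/-!
# Project RAD, package INT: the integral of the majorant
-/

set_option autoImplicit false

open MeasureTheory Filter Topology Set

namespace Pool.Agent.U618.RAD

open Pool.Agent.U307.RAD

/-- the logarithmic part -/
noncomputable def hh (s : ℝ) : ℝ := Real.log (1 + s ^ 2) ^ 2 / (1 + s ^ 2)

/-- the rational part -/
noncomputable def jj (s : ℝ) : ℝ := 1 / (1 + s ^ 2) ^ 2

theorem hh_cont : Continuous hh := by
  unfold hh
  refine Continuous.div ?_ (by fun_prop) (fun s => by positivity)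
  exact (Continuous.log (by fun_prop) (fun s => by positivity)).pow 2

theorem jj_cont : Continuous jj := by
  unfold jj
  exact Continuous.div (by fun_prop) (by fun_prop) (fun s => by positivity)

theorem hh_nonneg (s : ℝ) : 0 ≤ hh s := by unfold hh; positivity

theorem hh_integrable : Integrable hh := by
  refine Integrable.mono' ((integrable_one_add_norm (E := ℝ) (μ := volume) (r := 3 / 2)
    (by norm_num)).const_mul 128) hh_cont.aestronglyMeasurable (Eventually.of_forall fun s => ?_)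
  rw [Real.norm_of_nonneg (hh_nonneg s), Real.norm_eq_abs]
  set a : ℝ := 1 + |s| with ha
  have ha1 : 1 ≤ a := by rw [ha]; linarith [abs_nonneg s]
  have ha0 : 0 < a := by linarith
  have hs : s ^ 2 = |s| ^ 2 := (sq_abs s).symm
  have h1 : 1 + s ^ 2 ≤ a ^ 2 := by rw [hs, ha]; nlinarith [abs_nonneg s]
  have h2 : a ^ 2 ≤ 2 * (1 + s ^ 2) := by rw [hs, ha]; nlinarith [sq_nonneg (|s| - 1)]
  have h3 : Real.log (1 + s ^ 2) ≤ 8 * a ^ (1 / 4 : ℝ) := by
    have h4 : Real.log (1 + s ^ 2) ≤ Real.log (a ^ 2) := Real.log_le_log (by positivity) h1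
    have h5 : Real.log a ≤ a ^ (1 / 4 : ℝ) / (1 / 4) := Real.log_le_rpow_div ha0.le (by norm_num)
    rw [Real.log_pow] at h4
    push_cast at h4
    linarith
  have h6 : 0 ≤ Real.log (1 + s ^ 2) := Real.log_nonneg (by nlinarith [sq_nonneg s])
  have h7 : Real.log (1 + s ^ 2) ^ 2 ≤ 64 * a ^ (1 / 2 : ℝ) := by
    calc Real.log (1 + s ^ 2) ^ 2 ≤ (8 * a ^ (1 / 4 : ℝ)) ^ 2 := pow_le_pow_left₀ h6 h3 2
      _ = 64 * (a ^ (1 / 4 : ℝ)) ^ 2 := by ring
      _ = 64 * a ^ (1 / 2 : ℝ) := by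
          rw [← Real.rpow_natCast (a ^ (1 / 4 : ℝ)) 2, ← Real.rpow_mul ha0.le]
          norm_num
  have h8 : a ^ (-(3 / 2) : ℝ) = a ^ (1 / 2 : ℝ) / a ^ 2 := by
    rw [← Real.rpow_natCast a 2, ← Real.rpow_sub ha0]
    norm_num
  unfold hh
  rw [h8, div_le_iff₀ (by positivity)]
  have h9 : 0 ≤ a ^ (1 / 2 : ℝ) := by positivity
  have h10 : 128 * (a ^ (1 / 2 : ℝ) / a ^ 2) * (1 + s ^ 2) =
      64 * a ^ (1 / 2 : ℝ) * (2 * (1 + s ^ 2) / a ^ 2) := by ring
  rw [h10]
  have h11 : 1 ≤ 2 * (1 + s ^ 2) / a ^ 2 := by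
    rw [le_div_iff₀ (by positivity)]; linarith
  calc Real.log (1 + s ^ 2) ^ 2 ≤ 64 * a ^ (1 / 2 : ℝ) * 1 := by linarith
    _ ≤ _ := mul_le_mul_of_nonneg_left h11 (by positivity)

/-- the majorant on `(1, ∞)` -/
theorem big_part : ∫ s in Ioi (1 : ℝ), hh s ≤ Real.log 2 ^ 2 + 4 * Real.log 2 + 8 := by
  set c : ℝ := Real.log 2 with hc
  have hc0 : 0 < c := Real.log_pos (by norm_num)
  let G : ℝ → ℝ := fun s => -((c + 2 * Real.log s) ^ 2 + 4 * (c + 2 * Real.log s) + 8) / s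
  let g' : ℝ → ℝ := fun s => (c + 2 * Real.log s) ^ 2 / s ^ 2
  have hder : ∀ s ∈ Ici (1 : ℝ), HasDerivAt G (g' s) s := by
    intro s hs
    have hs0 : s ≠ 0 := (lt_of_lt_of_le one_pos hs).ne'
    have hL : HasDerivAt (fun s => c + 2 * Real.log s) (2 * s⁻¹) s :=
      ((Real.hasDerivAt_log hs0).const_mul 2).const_add c
    have h1 : HasDerivAt (fun s => -((c + 2 * Real.log s) ^ 2 + 4 * (c + 2 * Real.log s) + 8))
        (-(2 * (c + 2 * Real.log s) * (2 * s⁻¹) + 4 * (2 * s⁻¹))) s := by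
      have h2 := ((hL.pow 2).add (hL.const_mul 4)).add_const 8
      refine (h2.neg).congr_deriv ?_
      simp
    refine (h1.div (hasDerivAt_id s) hs0).congr_deriv ?_
    simp only [g', id]
    field_simp
    ring
  have hpos : ∀ s ∈ Ioi (1 : ℝ), 0 ≤ g' s := fun s _ => by positivity
  have hlim : Tendsto G atTop (𝓝 0) := by
    have e1 : Tendsto (fun s : ℝ => Real.log s / s) atTop (𝓝 0) :=
      (Real.isLittleO_log_id_atTop).tendsto_div_nhds_zero
    have e2 : Tendsto (fun s : ℝ => Real.log s ^ 2 / s) atTop (𝓝 0) :=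
      (Real.isLittleO_pow_log_id_atTop (n := 2)).tendsto_div_nhds_zero
    have e3 : Tendsto (fun s : ℝ => s⁻¹) atTop (𝓝 0) := tendsto_inv_atTop_zero
    have e4 := ((e2.const_mul (-4)).add (e1.const_mul (-(4 * c + 8)))).add
      (e3.const_mul (-(c ^ 2 + 4 * c + 8)))
    simp only [mul_zero, add_zero] at e4
    refine e4.congr fun s => ?_
    simp only [G]
    ring
  have hint : IntegrableOn g' (Ioi 1) := integrableOn_Ioi_deriv_of_nonneg' hder hpos hlim
  have hval : ∫ s in Ioi (1 : ℝ), g' s = c ^ 2 + 4 * c + 8 := by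
    rw [integral_Ioi_of_hasDerivAt_of_nonneg' hder hpos hlim]
    simp only [G, Real.log_one]
    ring
  rw [← hval]
  refine setIntegral_mono_on hh_integrable.integrableOn hint measurableSet_Ioi fun s hs => ?_
  have hs1 : (1 : ℝ) < s := hs
  have hs0 : 0 < s := by linarith
  have h1 : Real.log (1 + s ^ 2) ≤ c + 2 * Real.log s := by
    have h2 : Real.log (1 + s ^ 2) ≤ Real.log (2 * s ^ 2) :=
      Real.log_le_log (by positivity) (by nlinarith)
    rw [Real.log_mul (by norm_num) (by positivity), Real.log_pow] at h2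
    push_cast at h2
    exact h2
  have h6 : 0 ≤ Real.log (1 + s ^ 2) := Real.log_nonneg (by nlinarith [sq_nonneg s])
  simp only [g', hh]
  exact div_le_div₀ (sq_nonneg _) (pow_le_pow_left₀ h6 h1 2) (by positivity) (by linarith)

theorem small_part : ∫ s in Ioc (0 : ℝ) 1, hh s ≤ 1 / 5 := by
  have h1 : ∫ s in Ioc (0 : ℝ) 1, s ^ 4 = (1 / 5 : ℝ) := by
    rw [← intervalIntegral.integral_of_le zero_le_one, integral_pow]
    norm_num
  rw [← h1]
  refine setIntegral_mono_on hh_integrable.integrableOn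
    ((continuous_pow 4).integrableOn_Ioc) measurableSet_Ioc fun s hs => ?_
  have h2 : Real.log (1 + s ^ 2) ≤ s ^ 2 := by
    have := Real.log_le_sub_one_of_pos (show (0 : ℝ) < 1 + s ^ 2 by positivity)
    linarith
  have h6 : 0 ≤ Real.log (1 + s ^ 2) := Real.log_nonneg (by nlinarith [sq_nonneg s])
  have h7 : Real.log (1 + s ^ 2) ^ 2 ≤ s ^ 4 := by
    calc Real.log (1 + s ^ 2) ^ 2 ≤ (s ^ 2) ^ 2 := pow_le_pow_left₀ h6 h2 2
      _ = s ^ 4 := by ring
  unfold hh
  rw [div_le_iff₀ (by positivity)]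
  nlinarith [sq_nonneg s, pow_nonneg hs.1.le 4]

theorem hh_bound : ∫ s, hh s ≤ 23 := by
  have h1 : ∫ s, hh s = 2 * ∫ s in Ioi (0 : ℝ), hh s := by
    rw [← integral_comp_abs (f := hh)]
    refine integral_congr_ae (Eventually.of_forall fun s => ?_)
    simp only [hh, sq_abs]
  have h2 : ∫ s in Ioi (0 : ℝ), hh s = (∫ s in Ioc (0 : ℝ) 1, hh s) + ∫ s in Ioi (1 : ℝ), hh s := by
    rw [← Ioc_union_Ioi_eq_Ioi (zero_le_one : (0 : ℝ) ≤ 1)]
    exact setIntegral_union (Ioc_disjoint_Ioi le_rfl) measurableSet_Ioi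
      hh_integrable.integrableOn hh_integrable.integrableOn
  have h3 := small_part
  have h4 := big_part
  have h5 : Real.log 2 < 0.6931471808 := Real.log_two_lt_d9
  have h6 : 0 < Real.log 2 := Real.log_pos (by norm_num)
  rw [h1, h2]
  nlinarith

theorem jj_le (s : ℝ) : jj s ≤ (1 + s ^ 2)⁻¹ := by
  unfold jj
  rw [← one_div]
  refine one_div_le_one_div_of_le (by positivity) ?_
  nlinarith [sq_nonneg s, sq_nonneg (s ^ 2)]

theorem jj_integrable : Integrable jj := by
  refine Integrable.mono' integrable_inv_one_add_sq jj_cont.aestronglyMeasurable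
    (Eventually.of_forall fun s => ?_)
  rw [Real.norm_of_nonneg (by unfold jj; positivity)]
  exact jj_le s

theorem frac_lim {l : Filter ℝ} (hl : Tendsto (fun s : ℝ => s⁻¹) l (𝓝 0)) (h0 : ∀ᶠ s in l, s ≠ 0) :
    Tendsto (fun s : ℝ => s / (1 + s ^ 2)) l (𝓝 0) := by
  refine squeeze_zero_norm' (a := fun s => |s⁻¹|) ?_ (by simpa using hl.abs)
  filter_upwards [h0] with s hs
  have hs' : 0 < |s| := abs_pos.2 hs
  rw [Real.norm_eq_abs, abs_div, abs_inv, abs_of_pos (show (0 : ℝ) < 1 + s ^ 2 by positivity),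
    div_le_iff₀ (by positivity), inv_mul_eq_div, le_div_iff₀ hs', ← sq_abs s]
  nlinarith

theorem jj_value : ∫ s, jj s = Real.pi / 2 := by
  have hder : ∀ s : ℝ, HasDerivAt (fun s => (s / (1 + s ^ 2) + Real.arctan s) / 2) (jj s) s := by
    intro s
    have h0 : (1 + s ^ 2) ≠ 0 := by positivity
    have h1 : HasDerivAt (fun s : ℝ => 1 + s ^ 2) (2 * s) s := by
      simpa using (hasDerivAt_pow 2 s).const_add 1
    have h2 := (((hasDerivAt_id s).div h1 h0).add (Real.hasDerivAt_arctan s)).div_const 2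
    refine h2.congr_deriv ?_
    simp only [id, jj]
    field_simp
    ring
  have htop : Tendsto (fun s : ℝ => (s / (1 + s ^ 2) + Real.arctan s) / 2) atTop
      (𝓝 ((0 + Real.pi / 2) / 2)) := by
    refine ((frac_lim tendsto_inv_atTop_zero (eventually_ne_atTop 0)).add ?_).div_const 2
    exact tendsto_nhds_of_tendsto_nhdsWithin Real.tendsto_arctan_atTop
  have hbot : Tendsto (fun s : ℝ => (s / (1 + s ^ 2) + Real.arctan s) / 2) atBot
      (𝓝 ((0 + -(Real.pi / 2)) / 2)) := by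
    refine ((frac_lim tendsto_inv_atBot_zero (eventually_ne_atBot 0)).add ?_).div_const 2
    exact tendsto_nhds_of_tendsto_nhdsWithin Real.tendsto_arctan_atBot
  rw [integral_of_hasDerivAt_of_tendsto hder jj_integrable hbot htop]
  ring

theorem ww_eq {k : ℝ} (hk : 0 < k) (t : ℝ) :
    ww k t = (1 / k ^ 2) * (2 * hh (k⁻¹ * t) + 2 / k ^ 2 * jj (k⁻¹ * t)) := by
  have h1 : (k⁻¹ * t) ^ 2 = t ^ 2 / k ^ 2 := by
    field_simp
  have h2 : k ^ 2 + t ^ 2 = k ^ 2 * (1 + t ^ 2 / k ^ 2) := by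
    field_simp
  unfold ww hh jj
  rw [h1, h2]
  have h3 : (0 : ℝ) < 1 + t ^ 2 / k ^ 2 := by positivity
  set u := 1 + t ^ 2 / k ^ 2 with hu
  field_simp

/-- the integral of the majorant -/
theorem t_INT : S_INT := by
  intro k hk
  have hk' : k⁻¹ ≠ 0 := inv_ne_zero hk.ne'
  have e : ww k = fun t => (1 / k ^ 2) * (2 * hh (k⁻¹ * t) + 2 / k ^ 2 * jj (k⁻¹ * t)) :=
    funext fun t => ww_eq hk t
  have i1 : Integrable (fun s => 2 * hh s + 2 / k ^ 2 * jj s) :=
    (hh_integrable.const_mul 2).add (jj_integrable.const_mul _)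
  have i2 : Integrable (fun t => 2 * hh (k⁻¹ * t) + 2 / k ^ 2 * jj (k⁻¹ * t)) :=
    i1.comp_mul_left' hk'
  refine ⟨by rw [e]; exact i2.const_mul _, ?_⟩
  have h1 : ∫ t, ww k t = (1 / k ^ 2) * (k * (2 * (∫ s, hh s) + 2 / k ^ 2 * (∫ s, jj s))) := by
    rw [e, integral_const_mul,
      Measure.integral_comp_mul_left (fun s => 2 * hh s + 2 / k ^ 2 * jj s) k⁻¹, inv_inv,
      abs_of_pos hk, smul_eq_mul, integral_add (hh_integrable.const_mul 2)
      (jj_integrable.const_mul _), integral_const_mul, integral_const_mul]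
  rw [h1, jj_value]
  have h2 := hh_bound
  have h3 : (1 / k ^ 2) * (k * (2 * (∫ s, hh s) + 2 / k ^ 2 * (Real.pi / 2))) =
      2 * (∫ s, hh s) / k + Real.pi / k ^ 3 := by
    field_simp
  rw [h3]
  gcongr
  linarith

end Pool.Agent.U618.RAD
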